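import Mathlib
import Pool.Agent.V11101.Polyhedral
import Pool.Agent.V11101.L2Tail

/-!
# A pointed metric space with the small ball property, and `ℓ²` inside `SNA(M)`
-/

open Filter Topology Set Metric
open scoped InnerProductSpace NNReal

namespace Pool.Agent.Results.MP_8cd1d0_an.SmallBall

/-- A normed space is polyhedral if the closed unit ball of each of its finite-dimensional
subspaces is a polytope, i.e. the convex hull of a finite set. -/
def IsPolyhedral (X : Type*) [NormedAddCommGroup X] [NormedSpace ℝ X] : Prop :=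
  ∀ V : Submodule ℝ X, FiniteDimensional ℝ V →
    ∃ s : Set X, s.Finite ∧ {x : X | x ∈ V ∧ ‖x‖ ≤ 1} = convexHull ℝ s

/-- The vector space `Lip₀(M)` of Lipschitz functions on `M` vanishing at the base point `o`. -/
def lip0 (M : Type*) [MetricSpace M] (o : M) : Submodule ℝ (M → ℝ) where
  carrier := {f | f o = 0 ∧ ∃ K : ℝ≥0, LipschitzWith K f}
  add_mem' := by
    rintro f g ⟨hf0, K, hf⟩ ⟨hg0, L, hg⟩
    exact ⟨by rw [Pi.add_apply, hf0, hg0, add_zero], K + L, hf.add hg⟩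
  zero_mem' := ⟨rfl, 0, LipschitzWith.const 0⟩
  smul_mem' := by
    rintro c f ⟨hf0, K, hf⟩
    refine ⟨by rw [Pi.smul_apply, hf0, smul_zero], ‖c‖₊ * K, ?_⟩
    exact (lipschitzWith_smul c).comp hf

/-- The Lipschitz constant of `f`, i.e. the norm of `Lip₀(M)`. -/
noncomputable def lipNorm {M : Type*} [MetricSpace M] (f : M → ℝ) : ℝ :=
  sSup {c | ∃ x y : M, x ≠ y ∧ c = |f x - f y| / dist x y}

/-- `f` attains its Lipschitz norm strongly. -/
def StronglyAttains {M : Type*} [MetricSpace M] (f : M → ℝ) : Prop :=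
  ∃ x y : M, x ≠ y ∧ lipNorm f = |f x - f y| / dist x y

/-- The small ball property: for each `ε₀ > 0` the space is covered by a sequence of closed balls
with radii smaller than `ε₀` and tending to `0`. -/
def SmallBallProperty (M : Type*) [MetricSpace M] : Prop :=
  ∀ ε₀ : ℝ, 0 < ε₀ → ∃ (c : ℕ → M) (r : ℕ → ℝ), (∀ n, 0 < r n ∧ r n < ε₀) ∧
    Tendsto r atTop (𝓝 0) ∧ ⋃ n, closedBall (c n) (r n) = univ

open Pool.Agent.V11101.L2

/-! ### General facts -/

lemma smallBall_of_nets {M : Type} [MetricSpace M] (o : M) (C : ℕ → Set M)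
    (hC : ∀ m, (C m).Finite) (r : ℕ → ℝ) (hr : ∀ m, 0 < r m) (hr0 : Tendsto r atTop (𝓝 0))
    (h : ∀ p : M, ∀ N, ∃ m, N ≤ m ∧ ∃ c ∈ C m, dist p c ≤ r m) : SmallBallProperty M := by
  intro ε₀ hε₀
  obtain ⟨N, hN⟩ := (hr0.eventually_lt_const hε₀).exists_forall_of_atTop
  set D : ℕ → Set M := fun m => insert o (C (m + N)) with hD
  have hDf : ∀ m, (D m).Finite := fun m => (hC _).insert _
  have hfin : ∀ m, Finite (D m) := fun m => (hDf m).to_subtype
  have hcount : Countable (Σ m : ℕ, D m) := inferInstance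
  have hinf : Infinite (Σ m : ℕ, D m) := by
    refine Infinite.of_injective (fun m : ℕ => (⟨m, ⟨o, mem_insert _ _⟩⟩ : Σ m : ℕ, D m)) ?_
    intro m m' hmm
    exact congrArg Sigma.fst hmm
  obtain ⟨hden⟩ := nonempty_denumerable (Σ m : ℕ, D m)
  set e : ℕ ≃ (Σ m : ℕ, D m) := (Denumerable.eqv _).symm with he
  refine ⟨fun n => ((e n).2 : M), fun n => r ((e n).1 + N), fun n => ⟨hr _, hN _ (by omega)⟩,
    ?_, ?_⟩
  · have h1 : Tendsto (fun i : Σ m : ℕ, D m => i.1) cofinite atTop := by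
      refine tendsto_atTop.2 fun b => ?_
      rw [eventually_cofinite]
      have : {i : Σ m : ℕ, D m | ¬ b ≤ i.1} ⊆
          ⋃ m ∈ Finset.range b, (fun d : D m => (⟨m, d⟩ : Σ m : ℕ, D m)) '' univ := by
        rintro ⟨m, d⟩ hm
        simp only [mem_iUnion]
        refine ⟨m, Finset.mem_range.2 (not_le.1 hm), d, trivial, rfl⟩
      refine Set.Finite.subset ?_ this
      refine Set.Finite.biUnion (Finset.finite_toSet _) fun m _ => ?_
      exact (Set.finite_univ).image _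
    have h2 : Tendsto (fun n => (e n).1) atTop atTop := by
      have h3 : Tendsto (fun n => (e n).1) cofinite atTop := h1.comp e.injective.tendsto_cofinite
      rwa [Nat.cofinite_eq_atTop] at h3
    exact hr0.comp ((tendsto_add_atTop_nat N).comp h2)
  · refine eq_univ_of_forall fun p => ?_
    obtain ⟨m, hm, c, hc, hd⟩ := h p N
    rw [mem_iUnion]
    have hc' : c ∈ D (m - N) := by
      refine mem_insert_of_mem _ ?_
      rwa [Nat.sub_add_cancel hm]
    obtain ⟨n, hn⟩ := e.surjective ⟨m - N, ⟨c, hc'⟩⟩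
    have h1 : ((e n).2 : M) = c := by rw [hn]
    have h2 : (e n).1 + N = m := by rw [hn]; exact Nat.sub_add_cancel hm
    refine ⟨n, ?_⟩
    rw [mem_closedBall]
    show dist p ((e n).2 : M) ≤ r ((e n).1 + N)
    rw [h1, h2]
    exact hd

lemma bddAbove_lip {M : Type*} [MetricSpace M] {f : M → ℝ} {K : ℝ≥0} (hf : LipschitzWith K f) :
    BddAbove {c | ∃ x y : M, x ≠ y ∧ c = |f x - f y| / dist x y} := by
  refine ⟨K, ?_⟩
  rintro _ ⟨x, y, hxy, rfl⟩
  rw [div_le_iff₀ (dist_pos.2 hxy), ← Real.dist_eq]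
  exact hf.dist_le_mul x y

lemma le_lipNorm {M : Type*} [MetricSpace M] {f : M → ℝ} {K : ℝ≥0} (hf : LipschitzWith K f)
    (x y : M) : |f x - f y| ≤ lipNorm f * dist x y := by
  rcases eq_or_ne x y with rfl | hxy
  · simp
  · rw [← div_le_iff₀ (dist_pos.2 hxy)]
    exact le_csSup (bddAbove_lip hf) ⟨x, y, hxy, rfl⟩

/-! ### The metric space -/

/-- the underlying set `B × {0, 1}` -/
def Mset : Set (E × ℝ) := {p | p.1 ∈ B ∧ (p.2 = 0 ∨ p.2 = 1)}

/-- the metric space `B × {0, 1} ⊆ ℓ² × ℝ`, with the maximum metric -/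
abbrev M : Type := Mset

/-- the base point -/
noncomputable def o : M := ⟨(0, 0), mem_B_of_V (m := 0) (V 0).zero_mem (by simp), Or.inl rfl⟩

/-- the functions `p ↦ ⟪y, p⟫` -/
noncomputable def ι : E →ₗ[ℝ] (M → ℝ) where
  toFun := fun y p => ⟪y, p.1.1⟫_ℝ
  map_add' := fun y y' => by ext p; exact inner_add_left _ _ _
  map_smul' := fun c y => by ext p; simp [inner_smul_left]

lemma ι_apply (y : E) (p : M) : ι y p = ⟪y, p.1.1⟫_ℝ := rfl

lemma ι_bound (y : E) (p q : M) : |ι y p - ι y q| ≤ ‖y‖ * dist p q := by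
  rw [ι_apply, ι_apply, ← inner_sub_right]
  refine (abs_real_inner_le_norm _ _).trans ?_
  refine mul_le_mul_of_nonneg_left ?_ (norm_nonneg _)
  rw [← dist_eq_norm, Subtype.dist_eq, Prod.dist_eq]
  exact le_max_left _ _

lemma ι_lip (y : E) : LipschitzWith ‖y‖₊ (ι y) :=
  LipschitzWith.of_dist_le_mul fun p q => by
    rw [Real.dist_eq]
    exact ι_bound y p q

/-- the norm of `ι y` is attained -/
lemma ι_attain (y : E) : ∃ p q : M, p ≠ q ∧ |ι y p - ι y q| / dist p q = ‖y‖ := by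
  obtain ⟨z, hz1, hzy⟩ : ∃ z : E, ‖z‖ ≤ 1 ∧ ⟪y, z⟫_ℝ = ‖y‖ := by
    rcases eq_or_ne y 0 with rfl | hy
    · exact ⟨0, by simp, by simp⟩
    · have hpos : 0 < ‖y‖ := norm_pos_iff.2 hy
      refine ⟨‖y‖⁻¹ • y, ?_, ?_⟩
      · rw [norm_smul, norm_inv, norm_norm, inv_mul_cancel₀ hpos.ne']
      · rw [inner_smul_right, real_inner_self_eq_norm_sq]
        field_simp
  obtain ⟨a, ha, b, hb, hab⟩ := exists_split z hz1
  let p : M := ⟨(a, 0), ha, Or.inl rfl⟩
  let q : M := ⟨(-b, 1), neg_mem_B hb, Or.inr rfl⟩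
  have hdist : dist p q = 1 := by
    rw [Subtype.dist_eq, Prod.dist_eq]
    show max (dist a (-b)) (dist (0 : ℝ) 1) = 1
    rw [dist_eq_norm, sub_neg_eq_add, hab, Real.dist_eq]
    norm_num
    exact hz1
  have hpq : p ≠ q := by
    intro h
    rw [h, dist_self] at hdist
    exact zero_ne_one hdist
  refine ⟨p, q, hpq, ?_⟩
  rw [hdist, div_one, ι_apply, ι_apply, ← inner_sub_right]
  show |⟪y, a - -b⟫_ℝ| = ‖y‖
  rw [sub_neg_eq_add, hab, hzy, abs_of_nonneg (norm_nonneg _)]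

lemma lipNorm_ι (y : E) : lipNorm (ι y) = ‖y‖ := by
  refine IsGreatest.csSup_eq ⟨?_, ?_⟩
  · obtain ⟨p, q, hpq, h⟩ := ι_attain y
    exact ⟨p, q, hpq, h.symm⟩
  · rintro _ ⟨p, q, hpq, rfl⟩
    rw [div_le_iff₀ (dist_pos.2 hpq)]
    exact ι_bound y p q

lemma ι_inj : Function.Injective ι := by
  rw [← LinearMap.ker_eq_bot, LinearMap.ker_eq_bot']
  intro y hy
  have h1 := lipNorm_ι y
  rw [hy] at h1
  have h2 : lipNorm (ι 0) = ‖(0 : E)‖ := lipNorm_ι 0
  rw [map_zero, norm_zero] at h2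
  rw [h2] at h1
  exact norm_eq_zero.1 h1.symm

lemma M_smallBall : SmallBallProperty M := by
  classical
  choose t ht1 ht2 ht3 using fun m : ℕ => exists_net m (show (0 : ℝ) < 1 / ((m : ℝ) + 1) by positivity)
  -- the centers
  set C : ℕ → Set M := fun m => {p | p.1.1 ∈ t m} with hC
  have hCf : ∀ m, (C m).Finite := by
    intro m
    have h1 : ((t m) ×ˢ ({0, 1} : Set ℝ)).Finite := (ht1 m).prod (by simp)
    refine Set.Finite.of_finite_image (f := Subtype.val) (h1.subset ?_)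
      Subtype.val_injective.injOn
    rintro _ ⟨p, hp, rfl⟩
    exact ⟨hp, by rcases p.2.2 with h | h <;> simp [h]⟩
  have hr0 : Tendsto (fun m : ℕ => 2 * (1 / ((m : ℝ) + 1))) atTop (𝓝 0) := by
    have := (tendsto_one_div_add_atTop_nhds_zero_nat (𝕜 := ℝ)).const_mul 2
    simpa using this
  refine smallBall_of_nets o C hCf (fun m : ℕ => 2 * (1 / ((m : ℝ) + 1)))
    (fun m => by positivity) hr0 fun p N => ?_
  obtain ⟨m, hm, htail⟩ := p.2.1.2 N
  refine ⟨m, hm, ?_⟩
  -- the truncation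
  have htr : restr (Ici m)ᶜ p.1.1 ∈ V m := by
    intro i hi
    rw [restr_apply, if_neg (by simpa using hi)]
  obtain ⟨c, hc, hd⟩ := ht3 m _ htr ((restr_le _ _).trans p.2.1.1)
  have hcB : c ∈ B := mem_B_of_V (ht2 m c hc).1 (ht2 m c hc).2
  refine ⟨⟨(c, p.1.2), hcB, p.2.2⟩, hc, ?_⟩
  rw [Subtype.dist_eq, Prod.dist_eq]
  show max (dist p.1.1 c) (dist p.1.2 p.1.2) ≤ _
  rw [dist_self, max_le_iff]
  refine ⟨?_, by positivity⟩
  have e : p.1.1 - c = restr (Ici m) p.1.1 + (restr (Ici m)ᶜ p.1.1 - c) := by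
    have := restr_add_compl (Ici m) p.1.1
    nth_rewrite 1 [← this]
    abel
  rw [dist_eq_norm, e]
  refine (norm_add_le _ _).trans ?_
  rw [dist_eq_norm] at hd
  linarith

lemma closedY (f : ℕ → M → ℝ) (g : M → ℝ) (hf : ∀ n, f n ∈ LinearMap.range ι)
    (hg : g ∈ lip0 M o) (hlim : Tendsto (fun n => lipNorm (f n - g)) atTop (𝓝 0)) :
    g ∈ LinearMap.range ι := by
  choose y hy using hf
  obtain ⟨hg0, K, hgK⟩ := hg
  have hLip : ∀ n, LipschitzWith (‖y n‖₊ + K) (f n - g) := fun n => by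
    rw [← hy n]; exact (ι_lip (y n)).sub hgK
  -- Cauchy
  have hdist : ∀ n m, ‖y n - y m‖ ≤ lipNorm (f n - g) + lipNorm (f m - g) := by
    intro n m
    obtain ⟨p, q, hpq, h⟩ := ι_attain (y n - y m)
    rw [← h, div_le_iff₀ (dist_pos.2 hpq), map_sub, hy, hy]
    have h1 := le_lipNorm (hLip n) p q
    have h2 := le_lipNorm (hLip m) p q
    have e : (f n - f m) p - (f n - f m) q =
        ((f n - g) p - (f n - g) q) - ((f m - g) p - (f m - g) q) := by
      simp only [Pi.sub_apply]; ring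
    rw [e]
    refine (abs_sub _ _).trans ?_
    linarith
  have hcau : CauchySeq y := by
    rw [Metric.cauchySeq_iff]
    intro ε hε
    obtain ⟨N, hN⟩ := (hlim.eventually_lt_const (show (0 : ℝ) < ε / 2 by positivity)).exists_forall_of_atTop
    refine ⟨N, fun m hm n hn => ?_⟩
    rw [dist_eq_norm]
    have := hdist m n
    have h1 := hN m hm
    have h2 := hN n hn
    linarith
  obtain ⟨z, hz⟩ := cauchySeq_tendsto_of_complete hcau
  refine ⟨z, ?_⟩
  ext p
  have h1 : Tendsto (fun n => f n p) atTop (𝓝 (ι z p)) := by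
    have : Tendsto (fun n => ⟪y n, p.1.1⟫_ℝ) atTop (𝓝 ⟪z, p.1.1⟫_ℝ) :=
      hz.inner tendsto_const_nhds
    refine this.congr fun n => ?_
    rw [← hy n]; rfl
  have h2 : Tendsto (fun n => f n p) atTop (𝓝 (g p)) := by
    rw [tendsto_iff_dist_tendsto_zero]
    have h3 : Tendsto (fun n => lipNorm (f n - g) * dist p o) atTop (𝓝 0) := by
      have := hlim.mul_const (dist p o)
      simpa using this
    refine squeeze_zero (fun n => dist_nonneg) (fun n => ?_) h3
    have h4 := le_lipNorm (hLip n) p o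
    have h5 : f n o = 0 := by
      rw [← hy n, ι_apply]
      exact inner_zero_right _
    simp only [Pi.sub_apply, h5, hg0, sub_zero] at h4
    rw [Real.dist_eq]
    exact h4
  exact tendsto_nhds_unique h1 h2

universe u

theorem result : ∃ (M : Type) (_ : MetricSpace M) (o : M), Nontrivial M ∧ SmallBallProperty M ∧
    ∃ Y : Submodule ℝ (M → ℝ),
      -- `Y` is a closed linear subspace of `Lip₀(M)` contained in `SNA(M)` ...
      Y ≤ lip0 M o ∧
      (∀ (f : ℕ → M → ℝ) (g : M → ℝ), (∀ n, f n ∈ Y) → g ∈ lip0 M o →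
        Tendsto (fun n => lipNorm (f n - g)) atTop (𝓝 0) → g ∈ Y) ∧
      (∀ f ∈ Y, StronglyAttains f) ∧
      -- ... which is not isomorphic to any polyhedral Banach space
      ∀ (X : Type u) [NormedAddCommGroup X] [NormedSpace ℝ X] [CompleteSpace X], IsPolyhedral X →
        ¬ ∃ (T : Y ≃ₗ[ℝ] X) (c C : ℝ), 0 < c ∧
          ∀ f : Y, c * lipNorm (f : M → ℝ) ≤ ‖T f‖ ∧ ‖T f‖ ≤ C * lipNorm (f : M → ℝ) := by
  refine ⟨M, inferInstance, o, ?_, M_smallBall, LinearMap.range ι, ?_, closedY, ?_, ?_⟩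
  · obtain ⟨p, q, hpq, -⟩ := ι_attain 0
    exact ⟨p, q, hpq⟩
  · rintro _ ⟨y, rfl⟩
    refine ⟨?_, ‖y‖₊, ι_lip y⟩
    show ⟪y, (0 : E)⟫_ℝ = 0
    exact inner_zero_right _
  · rintro _ ⟨y, rfl⟩
    obtain ⟨p, q, hpq, h⟩ := ι_attain y
    exact ⟨p, q, hpq, by rw [lipNorm_ι, h]⟩
  · intro X _ _ _ hX
    rintro ⟨T, c, C, hc, hT⟩
    let S : E ≃ₗ[ℝ] X := (LinearEquiv.ofInjective ι ι_inj).trans T
    have hS : ∀ y, c * ‖y‖ ≤ ‖S y‖ ∧ ‖S y‖ ≤ C * ‖y‖ := by
      intro y
      have h1 := hT (LinearEquiv.ofInjective ι ι_inj y)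
      have h2 : lipNorm ((LinearEquiv.ofInjective ι ι_inj y : LinearMap.range ι) : M → ℝ) = ‖y‖ := by
        rw [LinearEquiv.ofInjective_apply, lipNorm_ι]
      rw [h2] at h1
      exact h1
    let S' : E ≃L[ℝ] X := S.toContinuousLinearEquivOfBounds C c⁻¹ (fun y => (hS y).2) (fun x => by
      have := (hS (S.symm x)).1
      rw [LinearEquiv.apply_symm_apply] at this
      rw [inv_mul_eq_div, le_div_iff₀ hc]
      linarith)
    exact Pool.Agent.V11101.Poly.not_iso not_fin hX S'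

end Pool.Agent.Results.MP_8cd1d0_an.SmallBall
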